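import Pool.Agent.N579.HJ.Slow
import Pool.Agent.TH747.HP.Two

/-! The gap sum of the slow colouring and the end homogeneity of solutions. -/

namespace Pool.Agent.N579.HJ

open Finset Pool.Agent.H645R2.HT Pool.Agent.Helper446 Pool.Agent.Helper446.RE
  Pool.Agent.Helper446.Oracle Pool.Agent.N579.HI Pool.Agent.TH747.HS

variable {R : ℕ → ℕ → ℕ → ℕ → ℕ → Bool}

/-- The gap sum. -/
def cG (R : ℕ → ℕ → ℕ → ℕ → ℕ → Bool) (k n : ℕ) : ℕ :=
  bsum (fun p => bsum (fun q => bif gapB n p q then G R k (mu n) p q else 0) n) n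

theorem cG_eq (k n : ℕ) : cG R k n = ∑ γ ∈ gaps (D n), G R k (mu n) γ.1 γ.2 := by
  unfold cG
  rw [bsum_eq]
  simp only [bsum_eq]
  have h := sum_gaps n (fun _ _ => True) (fun p q => G R k (mu n) p q)
  rw [filter_true_of_mem fun _ _ => trivial] at h
  rw [← h]
  refine sum_congr rfl fun a _ => sum_congr rfl fun b _ => ?_
  rw [cond_eq_ite]
  refine if_congr ?_ rfl rfl
  rw [gapB_iff, and_true]

theorem cG_add {k h l : ℕ} (hh : 0 < h) (hl : 0 < l) (hs : Sep h l) :
    cG R k (h + l) = (∑ γ ∈ gaps (D h), G R k (mu l) γ.1 γ.2) + G R k (mu l) (mu h) (la l) +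
      cG R k l := by
  have J := jn hh hl hs
  rw [cG_eq, cG_eq, D_add hs, gaps_union J, sum_union (disj2 J), sum_union (disj1 J),
    sum_singleton, mu_add hl hs]

theorem oky {X : Set ℕ} (hM : ModOK (WR R) X) {l : ℕ} (hl : l ∈ X) : Oky R (mu l) (la l) :=
  fun z hz t ht => hM l hl z hz t ht

/-- The slow colour of `mu h`, `la l` depends on `h` only. -/
theorem end_hom {X : Set ℕ} {k : ℕ} (hk : 0 < k) (hp : Ps X) (hM : ModOK (WR R) X)
    (hc : ∀ h ∈ X, ∀ l ∈ X, Sep h l → cG R k (h + l) % k = cG R k l % k) {h l l' : ℕ}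
    (hh : h ∈ X) (hl : l ∈ X) (hl' : l' ∈ X) (hs : Sep h l) (hs' : Sep h l') :
    G R k (mu l) (mu h) (la l) = G R k (mu l') (mu h) (la l') := by
  have h1 := hc h hh l hl hs
  have h2 := hc h hh l' hl' hs'
  rw [cG_add (hp h hh) (hp l hl) hs] at h1
  rw [cG_add (hp h hh) (hp l' hl') hs'] at h2
  have h3 : (∑ γ ∈ gaps (D h), G R k (mu l) γ.1 γ.2) =
      ∑ γ ∈ gaps (D h), G R k (mu l') γ.1 γ.2 := by
    refine sum_congr rfl fun γ hγ => ?_
    have h4 := mem_gaps.1 hγ
    have h5 : γ.2 ≤ mu h := le_mu (List.mem_toFinset.1 h4.2.1)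
    unfold Pool.Agent.H645R2.HT.Sep at hs hs'
    exact G_congr ((oky hM hl).mono (by omega)) ((oky hM hl').mono (by omega)) k _
  rw [h3] at h1
  generalize (∑ γ ∈ gaps (D h), G R k (mu l') γ.1 γ.2) = T at h1 h2
  have e1 : T + G R k (mu l) (mu h) (la l) ≡ 0 [MOD k] := by
    have : T + G R k (mu l) (mu h) (la l) + cG R k l ≡ 0 + cG R k l [MOD k] := by
      rw [zero_add]; exact h1
    exact Nat.ModEq.add_right_cancel' _ this
  have e2 : T + G R k (mu l') (mu h) (la l') ≡ 0 [MOD k] := by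
    have : T + G R k (mu l') (mu h) (la l') + cG R k l' ≡ 0 + cG R k l' [MOD k] := by
      rw [zero_add]; exact h2
    exact Nat.ModEq.add_right_cancel' _ this
  have e3 : G R k (mu l) (mu h) (la l) ≡ G R k (mu l') (mu h) (la l') [MOD k] :=
    Nat.ModEq.add_left_cancel' T (e1.trans e2.symm)
  exact e3.eq_of_lt_of_lt (G_lt hk _ _ _) (G_lt hk _ _ _)

theorem c_cG (hR : Computable fun q : ℕ × ℕ × ℕ × ℕ × ℕ => R q.1 q.2.1 q.2.2.1 q.2.2.2.1
    q.2.2.2.2) (k : ℕ) : Computable fun n => cG R k n := by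
  unfold cG
  refine c_bsum (f := fun n p => bsum (fun q => bif gapB n p q then G R k (mu n) p q else 0) n)
    ?_ Computable.id
  refine c_bsum (f := fun (x : ℕ × ℕ) q => bif gapB x.1 x.2 q then G R k (mu x.1) x.2 q else 0)
    ?_ (by fun_prop)
  exact ccond (c_gapB (by fun_prop) (by fun_prop) (by fun_prop))
    (c_G hR k (c_mu (by fun_prop)) (by fun_prop) (by fun_prop)) (Computable.const 0)

/-- A sequence of elements of `P` with a computable relation between consecutive terms. -/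
theorem exists_seq2 {X : Set ℕ} {P : ℕ → Prop} {Q : ℕ → ℕ → Bool}
    (hQ : Computable fun p : ℕ × ℕ => Q p.1 p.2) (r1 : REIn X fun n : ℕ => P n)
    (r2 : REIn X fun n : ℕ => ¬ P n) (hP0 : ∃ h, P h) (hP : ∀ m, ∃ h, P h ∧ Q m h = true) :
    ∃ f : ℕ → ℕ, TotIn X f ∧ (∀ n, P (f n)) ∧ ∀ n, Q (f n) (f (n + 1)) = true := by
  classical
  let nx : ℕ → ℕ := fun m => Nat.find (hP m)
  have hnx : ∀ m, P (nx m) ∧ Q m (nx m) = true := fun m => Nat.find_spec (hP m)
  have hQ' : Computable fun p : (ℕ × ℕ) => !(Q p.1 p.2) := cnot hQ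
  have hg : REIn X fun p : ℕ × ℕ => nx p.1 = p.2 := by
    have h1 : REIn X fun p : ℕ × ℕ => (P p.2 ∧ Q p.1 p.2 = true) ∧
        ∀ i < p.2, (¬ P i ∨ (!(Q p.1 i)) = true) := by
      refine REIn.and (REIn.and (r1.comp (f := fun p : ℕ × ℕ => p.2) (by fun_prop))
        (REIn.of_re (RE.of_bool hQ))) ?_
      refine REIn.all_lt (S := fun (p : ℕ × ℕ) i => ¬ P i ∨ (!(Q p.1 i)) = true) ?_
        (by fun_prop)
      refine REIn.or (r2.comp (f := fun p : (ℕ × ℕ) × ℕ => p.2) (by fun_prop))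
        (REIn.of_re (RE.of_bool (hQ'.comp (g := fun p : (ℕ × ℕ) × ℕ => (p.1.1, p.2))
          (by fun_prop))))
    refine h1.of_eq fun p => ?_
    constructor
    · rintro ⟨h2, h3⟩
      refine (Nat.find_eq_iff _).2 ⟨h2, fun i hi h4 => ?_⟩
      rcases h3 i hi with h5 | h5
      · exact h5 h4.1
      · rw [h4.2] at h5
        cases h5
    · intro h2
      obtain ⟨h3, h4⟩ := (Nat.find_eq_iff _).1 h2
      refine ⟨h3, fun i hi => ?_⟩
      by_cases h5 : P i
      · right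
        have := h4 i hi
        cases h6 : Q p.1 i
        · rfl
        · exact absurd ⟨h5, h6⟩ this
      · exact Or.inl h5
  have hT : TotIn X nx := recursiveIn_of_graph hg
  obtain ⟨h0, hh0⟩ := hP0
  refine ⟨fun n => Nat.rec (motive := fun _ => ℕ) h0 (fun _ r => nx r) n, ?_, ?_, ?_⟩
  · have h1 : TotIn X fun p : ℕ => nx (p.unpair.2.unpair.2) :=
      hT.comp (TotIn.of_comp (f := fun p : ℕ => p.unpair.2.unpair.2) (by fun_prop))
    have h2 := TotIn.prec (TotIn.of_comp (A := X) (f := fun _ : ℕ => h0) (by fun_prop)) h1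
    have h3 := h2.comp (TotIn.of_comp (A := X) (f := fun n : ℕ => Nat.pair 0 n) (by fun_prop))
    refine h3.of_eq fun n => ?_
    simp only [Nat.unpair_pair]
  · intro n
    cases n with
    | zero => exact hh0
    | succ n => exact (hnx _).1
  · intro n
    exact (hnx _).2

end Pool.Agent.N579.HJ
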