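import Pool.Agent.N579.HI.Col
import Pool.Agent.N579.HI.Sq

/-! The slowed down version of a colouring of pairs which is computable in the first jump. -/

namespace Pool.Agent.N579.HJ

open Finset Pool.Agent.H645R2.HT Pool.Agent.Helper446 Pool.Agent.Helper446.RE
  Pool.Agent.Helper446.Oracle Pool.Agent.N579.HI

/-- The code of the fact `c` about the pair `(a, b)`. -/
def zc (a b c : ℕ) : ℕ := Nat.pair (Nat.pair a b) c

variable (R : ℕ → ℕ → ℕ → ℕ → ℕ → Bool)

/-- The facts refuted before stage `s`. -/
def WR (s z : ℕ) : Bool :=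
  exB (fun v => !(R z.unpair.1.unpair.1 z.unpair.1.unpair.2 z.unpair.2.unpair.1
    z.unpair.2.unpair.2 v)) s

/-- The fact `c` is small and not refuted. -/
def fnd (s a b v c : ℕ) : Bool := decide (zc a b c < v + 1) && !(WR R s (zc a b c))

/-- The least such fact. -/
def ws (s a b v : ℕ) : ℕ := lst (fnd R s a b v) (v + 1)

/-- All pairs `(a, b)`, `a ≤ b`, have such facts. -/
def okb (s b v : ℕ) : Bool := allB (fun a => decide (ws R s a b v < v + 1)) (b + 1)

/-- The greatest such `b < v`. -/
def bb (s v : ℕ) : ℕ := grt (fun b => okb R s b v) v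

/-- The slow colouring. -/
def G (k s u v : ℕ) : ℕ :=
  bif decide (u < bb R s v + 1) && decide (ws R s u (bb R s v) v < v + 1) then
    (ws R s u (bb R s v) v).unpair.1 % k else 0

variable {R}

theorem WR_iff {s a b c : ℕ} : WR R s (zc a b c) = true ↔
    ∃ v < s, R a b c.unpair.1 c.unpair.2 v = false := by
  unfold WR zc
  simp only [Nat.unpair_pair, exB_iff, Bool.not_eq_true']

theorem mon_WR : Mon (WR R) := by
  intro s t z hst h
  unfold WR at *
  rw [exB_iff] at *
  obtain ⟨v, hv, h⟩ := h
  exact ⟨v, by omega, h⟩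

/-- `s` is late enough for the facts `≤ v`. -/
def Oky (R : ℕ → ℕ → ℕ → ℕ → ℕ → Bool) (s v : ℕ) : Prop :=
  ∀ z ≤ v, ∀ t, WR R t z = true → WR R s z = true

theorem Oky.mono {s v v' : ℕ} (h : Oky R s v) (hv : v' ≤ v) : Oky R s v' :=
  fun z hz => h z (hz.trans hv)

theorem fnd_congr {s s' v : ℕ} (h : Oky R s v) (h' : Oky R s' v) (a b c : ℕ) :
    fnd R s a b v c = fnd R s' a b v c := by
  unfold fnd
  by_cases hz : zc a b c < v + 1
  · have e : WR R s (zc a b c) = WR R s' (zc a b c) := by
      rw [Bool.eq_iff_iff]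
      exact ⟨fun h1 => h' _ (by omega) _ h1, fun h1 => h _ (by omega) _ h1⟩
    rw [e]
  · simp [hz]

theorem ws_congr {s s' v : ℕ} (h : Oky R s v) (h' : Oky R s' v) (a b : ℕ) :
    ws R s a b v = ws R s' a b v := by
  unfold ws
  exact lst_congr fun i _ => fnd_congr h h' a b i

theorem okb_congr {s s' v : ℕ} (h : Oky R s v) (h' : Oky R s' v) (b : ℕ) :
    okb R s b v = okb R s' b v := by
  unfold okb
  simp only [ws_congr h h']

theorem bb_congr {s s' v : ℕ} (h : Oky R s v) (h' : Oky R s' v) : bb R s v = bb R s' v := by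
  unfold bb
  simp only [okb_congr h h']

theorem G_congr {s s' v : ℕ} (h : Oky R s v) (h' : Oky R s' v) (k u : ℕ) :
    G R k s u v = G R k s' u v := by
  unfold G
  rw [bb_congr h h', ws_congr h h']

theorem G_lt {k : ℕ} (hk : 0 < k) (s u v : ℕ) : G R k s u v < k := by
  unfold G
  rw [cond_eq_ite]
  split_ifs
  · exact Nat.mod_lt _ hk
  · exact hk

theorem ws_spec {s a b v : ℕ} (h : ws R s a b v < v + 1) :
    fnd R s a b v (ws R s a b v) = true := lst_of_lt h

theorem grt_spec {q : ℕ → Bool} {n i : ℕ} (hi : i < n) (hq : q i = true) :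
    q (grt q n) = true ∧ i ≤ grt q n := by
  induction n with
  | zero => omega
  | succ n ih =>
    rw [grt]
    cases h : q n
    · simp only [cond_false]
      have h1 : i ≠ n := by
        rintro rfl
        rw [hq] at h
        cases h
      exact ih (by omega)
    · simp only [cond_true]
      exact ⟨h, by omega⟩

theorem grt_lt {q : ℕ → Bool} {n : ℕ} (hn : 0 < n) : grt q n < n := by
  induction n with
  | zero => omega
  | succ n ih =>
    rw [grt]
    cases h : q n
    · simp only [cond_false]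
      rcases Nat.eq_zero_or_pos n with rfl | h1
      · simp [grt]
      · have := ih h1
        omega
    · simp

theorem okb_ws {s a b v : ℕ} (h : okb R s b v = true) (ha : a ≤ b) : ws R s a b v < v + 1 := by
  unfold okb at h
  rw [allB_iff] at h
  exact of_decide_eq_true (h a (by omega))

section truth

variable {g : ℕ → ℕ → ℕ} {k : ℕ} (hgk : ∀ a b, g a b < k)
  (hg : ∀ a b t, g a b = t ↔ ∃ u, ∀ v, R a b t u v = true)

include hg in
/-- The witnesses appear. -/
theorem exists_ws (s b a : ℕ) : ∃ N, ∀ v, N ≤ v → ∀ s, ws R s a b v < v + 1 := by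
  obtain ⟨u, hu⟩ := (hg a b _).1 rfl
  refine ⟨zc a b (Nat.pair (g a b) u), fun v hv s => ?_⟩
  unfold ws
  refine (lst_lt_of (i := Nat.pair (g a b) u) ?_ ?_).2.1
  · have : Nat.pair (g a b) u ≤ zc a b (Nat.pair (g a b) u) := Nat.right_le_pair _ _
    omega
  · unfold fnd
    rw [Bool.and_eq_true, decide_eq_true_eq, Bool.not_eq_true']
    refine ⟨by omega, ?_⟩
    rw [← Bool.not_eq_true, WR_iff]
    rintro ⟨v', _, h⟩
    simp only [Nat.unpair_pair] at h
    rw [hu v'] at h
    cases h

include hg in
theorem exists_okb (b : ℕ) : ∃ N, ∀ v, N ≤ v → ∀ s, okb R s b v = true := by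
  choose N hN using exists_ws hg 0 b
  refine ⟨(range (b + 1)).sup N, fun v hv s => ?_⟩
  unfold okb
  rw [allB_iff]
  intro a ha
  refine decide_eq_true (hN a v ?_ s)
  exact (Finset.le_sup (f := N) (mem_range.2 ha)).trans hv

include hg in
/-- `bb` tends to infinity and eventually satisfies the test. -/
theorem exists_bb (m : ℕ) : ∃ N, ∀ v, N ≤ v → ∀ s,
    okb R s (bb R s v) v = true ∧ m ≤ bb R s v := by
  obtain ⟨N, hN⟩ := exists_okb hg m
  refine ⟨max N (m + 1), fun v hv s => ?_⟩
  have h1 : N ≤ v := (le_max_left _ _).trans hv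
  have h2 : m + 1 ≤ v := (le_max_right _ _).trans hv
  exact grt_spec (q := fun b => okb R s b v) (by omega) (hN v h1 s)

include hgk hg in
theorem G_true {s u v : ℕ} (h : Oky R s v) (h1 : okb R s (bb R s v) v = true)
    (h2 : u ≤ bb R s v) : G R k s u v = g u (bb R s v) := by
  have h3 := okb_ws h1 h2
  unfold G
  rw [decide_eq_true (show u < bb R s v + 1 by omega), decide_eq_true h3]
  simp only [Bool.and_self, cond_true]
  have h4 := ws_spec h3
  unfold fnd at h4
  rw [Bool.and_eq_true, decide_eq_true_eq, Bool.not_eq_true'] at h4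
  have h5 : g u (bb R s v) = (ws R s u (bb R s v) v).unpair.1 := by
    refine (hg _ _ _).2 ⟨(ws R s u (bb R s v) v).unpair.2, fun v' => ?_⟩
    by_contra hc
    rw [Bool.not_eq_true] at hc
    have h6 := h _ (show zc u (bb R s v) (ws R s u (bb R s v) v) ≤ v by omega) (v' + 1)
      (WR_iff.2 ⟨v', by omega, hc⟩)
    rw [h4.2] at h6
    cases h6
  rw [← h5]
  exact Nat.mod_eq_of_lt (hgk _ _)

end truth

section comp

variable {α : Type*} [Primcodable α]
  (hR : Computable fun q : ℕ × ℕ × ℕ × ℕ × ℕ => R q.1 q.2.1 q.2.2.1 q.2.2.2.1 q.2.2.2.2)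

theorem c_zc {f g i : α → ℕ} (hf : Computable f) (hg : Computable g) (hi : Computable i) :
    Computable fun a => zc (f a) (g a) (i a) := by
  unfold zc
  fun_prop

include hR

theorem c_WR2 : Computable fun p : ℕ × ℕ => WR R p.1 p.2 := by
  unfold WR
  refine computable_exB (q := fun (p : ℕ × ℕ) v => !(R p.2.unpair.1.unpair.1
    p.2.unpair.1.unpair.2 p.2.unpair.2.unpair.1 p.2.unpair.2.unpair.2 v)) ?_ (by fun_prop)
  unfold Computable₂
  refine cnot ?_
  exact hR.comp (g := fun x : (ℕ × ℕ) × ℕ => (x.1.2.unpair.1.unpair.1, x.1.2.unpair.1.unpair.2,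
    x.1.2.unpair.2.unpair.1, x.1.2.unpair.2.unpair.2, x.2)) (by fun_prop)

theorem c_WR {f g : α → ℕ} (hf : Computable f) (hg : Computable g) :
    Computable fun a => WR R (f a) (g a) :=
  (c_WR2 hR).comp (g := fun a => (f a, g a)) (by fun_prop)

theorem c_ws {f g i j : α → ℕ} (hf : Computable f) (hg : Computable g) (hi : Computable i)
    (hj : Computable j) : Computable fun a => ws R (f a) (g a) (i a) (j a) := by
  unfold ws
  refine c_lst (q := fun (a : α) c => fnd R (f a) (g a) (i a) (j a) c) ?_ (by fun_prop)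
  unfold fnd
  have h1 : Computable fun p : α × ℕ => zc (g p.1) (i p.1) p.2 :=
    c_zc (by fun_prop) (by fun_prop) (by fun_prop)
  exact cand (c_dlt h1 (by fun_prop)) (cnot (c_WR hR (by fun_prop) h1))

theorem c_okb {f g i : α → ℕ} (hf : Computable f) (hg : Computable g) (hi : Computable i) :
    Computable fun a => okb R (f a) (g a) (i a) := by
  unfold okb
  refine computable_allB (q := fun (a : α) c => decide (ws R (f a) c (g a) (i a) < i a + 1)) ?_
    (by fun_prop)
  unfold Computable₂
  exact c_dlt (c_ws hR (by fun_prop) (by fun_prop) (by fun_prop) (by fun_prop)) (by fun_prop)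

theorem c_bb {f g : α → ℕ} (hf : Computable f) (hg : Computable g) :
    Computable fun a => bb R (f a) (g a) := by
  unfold bb
  exact c_grt (q := fun (a : α) b => okb R (f a) b (g a))
    (c_okb hR (by fun_prop) (by fun_prop) (by fun_prop)) hg

theorem c_G (k : ℕ) {f g i : α → ℕ} (hf : Computable f) (hg : Computable g)
    (hi : Computable i) : Computable fun a => G R k (f a) (g a) (i a) := by
  unfold G
  have h1 : Computable fun a => bb R (f a) (i a) := c_bb hR hf hi
  have h2 : Computable fun a => ws R (f a) (g a) (bb R (f a) (i a)) (i a) :=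
    c_ws hR hf hg h1 hi
  refine ccond (cand (c_dlt hg (by fun_prop)) (c_dlt h2 (by fun_prop))) ?_ (Computable.const 0)
  have h3 : Computable fun a => (ws R (f a) (g a) (bb R (f a) (i a)) (i a)).unpair.1 := by
    fun_prop
  exact (Primrec.nat_mod.to_comp).comp h3 (Computable.const k)

end comp

end Pool.Agent.N579.HJ
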